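import Pool.Agent.H590.NL.Stm

/-!
# MP_85210c_gt in all dimensions (project NL of helper590): task KEY (helper501)
-/

set_option autoImplicit false

noncomputable section

open MeasureTheory Filter Topology Set
open scoped BigOperators ENNReal

namespace H501NL

open H590NL

variable {n : ℕ} {κ : Type} [Fintype κ]

lemma ip_mulVec (M : Matrix (Fin n) (Fin n) ℝ) (v x : V n) :
    ip (M.mulVec v) x = ip v (Matrix.toLin' M.transpose x) := by
  rw [Matrix.toLin'_apply]
  have e : ∀ a b : V n, ip a b = dotProduct a b := fun _ _ => rfl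
  rw [e, e, Matrix.mulVec_transpose, dotProduct_comm, Matrix.dotProduct_mulVec, dotProduct_comm]

lemma TT_lin (p : ℝ) (M : Matrix (Fin n) (Fin n) ℝ) (hM : M.det ≠ 0) (v : κ → V n) (k : κ) :
    TT p (fun k => M.mulVec (v k)) k = |M.det|⁻¹ * TT p v k := by
  have hMt : M.transpose.det ≠ 0 := by rwa [Matrix.det_transpose]
  have h1 := Real.map_matrix_volume_pi_eq_smul_volume_pi hMt
  have hemb : MeasurableEmbedding (Matrix.toLin' M.transpose) := by
    have hd : LinearMap.det (Matrix.toLin' M.transpose) ≠ 0 := by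
      rwa [LinearMap.det_toLin']
    have hb : Function.Bijective (Matrix.toLin' M.transpose) := by
      have := LinearMap.isUnit_iff_isUnit_det (Matrix.toLin' M.transpose)
      exact (Module.End.isUnit_iff _).1 (this.2 (isUnit_iff_ne_zero.2 hd))
    exact (LinearEquiv.toContinuousLinearEquiv
      (LinearEquiv.ofBijective (Matrix.toLin' M.transpose) hb)).toHomeomorph.measurableEmbedding
  have h2 := hemb.integral_map (μ := (volume : Measure (V n)))
    (fun x : V n => Real.exp (-(Ph p v one x)) * tau p v k x)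
  rw [h1, integral_smul_measure, ENNReal.toReal_ofReal (abs_nonneg _), Matrix.det_transpose,
    abs_inv, smul_eq_mul] at h2
  unfold TT
  rw [h2]
  refine integral_congr_ae (Eventually.of_forall fun x => ?_)
  simp only [Ph, tau, ip_mulVec]

lemma Ph_bu (p : ℝ) (w : κ → V n) (k : κ) (y : ℝ) (x : V n) :
    Ph p w (bu k y) x = Ph p w one x + y * |ip (w k) x| ^ p := by
  classical
  have e : y * |ip (w k) x| ^ p = ∑ i, if i = k then y * |ip (w i) x| ^ p else 0 := by
    rw [Finset.sum_ite_eq' Finset.univ k, if_pos (Finset.mem_univ k)]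
  rw [e]
  unfold Ph
  rw [← Finset.sum_add_distrib]
  refine Finset.sum_congr rfl fun i _ => ?_
  by_cases hi : i = k
  · subst hi
    simp only [bu, Function.update_self, one, if_true]
    ring
  · simp only [bu, Function.update_of_ne hi, one, if_neg hi, add_zero]

omit [Fintype κ] in
lemma spans_lin (M : Matrix (Fin n) (Fin n) ℝ) (hM : M.det ≠ 0) (v : κ → V n) (hv : Spans v) :
    Spans (fun k => M.mulVec (v k)) := by
  obtain ⟨f, hf⟩ := hv
  refine ⟨f, ?_⟩
  have e : dm (fun k => M.mulVec (v k)) f = dm v f * M.transpose := by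
    ext i j
    simp only [dm, Matrix.of_apply, Matrix.mul_apply, Matrix.mulVec, dotProduct,
      Matrix.transpose_apply]
    exact Finset.sum_congr rfl fun l _ => mul_comm _ _
  rw [e, Matrix.det_mul, Matrix.det_transpose]
  exact mul_ne_zero hf hM

lemma exists_mat {m : ℕ} (u : V (m + 1)) (hu : u ≠ 0) :
    ∃ M : Matrix (Fin (m + 1)) (Fin (m + 1)) ℝ, M.det ≠ 0 ∧ M.mulVec u = Pi.single 0 1 := by
  have h1 : (Pi.single 0 1 : V (m + 1)) ≠ 0 := by
    intro h
    have := congrFun h 0
    simp at this
  obtain ⟨A, hA⟩ := SeparatingDual.exists_continuousLinearEquiv_apply_eq (R := ℝ) hu h1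
  refine ⟨LinearMap.toMatrix' (A.toLinearEquiv : V (m + 1) →ₗ[ℝ] V (m + 1)), ?_, ?_⟩
  · rw [LinearMap.det_toMatrix']
    exact (LinearEquiv.isUnit_det' A.toLinearEquiv).ne_zero
  · rw [← Matrix.toLin'_apply, Matrix.toLin'_toMatrix']
    exact hA

/-- Task KEY. -/
theorem KEY (h1 : S_KE) (h2 : S_GL) (_h3 : S_IF) : S_KEY := by
  intro n κ _ p hp hp2 v hv k y hy
  have hp0 : p ≠ 0 := by linarith
  by_cases hk : v k = 0
  · have hz : ∀ x : V n, |ip (v k) x| ^ p = 0 := by
      intro x
      rw [hk]
      simp [ip, Real.zero_rpow hp0]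
    have e1 : FF p v (bu k y) = FF p v one := by
      unfold FF
      congr 1
      funext x
      rw [Ph_bu, hz, mul_zero, add_zero]
    have e2 : TT p v k = 0 := by
      unfold TT tau
      simp only [hz, mul_zero, integral_zero]
    rw [e1, e2]
    simp
  · obtain _ | m := n
    · exact absurd (Subsingleton.elim _ _) hk
    obtain ⟨M, hM, hMk⟩ := exists_mat (v k) hk
    have hw := spans_lin M hM v hv
    have hF : ∀ b : κ → ℝ, FF p (fun k => M.mulVec (v k)) b = |M.det|⁻¹ * FF p v b := fun b =>
      (h2 (m + 1) κ p hp hp2.le v b M hM).1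
    have hT := TT_lin p M hM v k
    have key := h1 m κ p hp hp2 (fun k => M.mulVec (v k)) hw y hy
    have hip : ∀ x : V (m + 1), ip (M.mulVec (v k)) x = x 0 := by
      intro x
      rw [hMk]
      simp [ip, Pi.single_apply]
    have e1 : FF p (fun k => M.mulVec (v k)) (bu k y) =
        ∫ x : V (m + 1), Real.exp (-(Ph p (fun k => M.mulVec (v k)) one x + y * |x 0| ^ p)) := by
      unfold FF
      congr 1
      funext x
      rw [Ph_bu, hip]
    have e2 : TT p (fun k => M.mulVec (v k)) k =
        ∫ x : V (m + 1), Real.exp (-(Ph p (fun k => M.mulVec (v k)) one x)) * |x 0| ^ p := by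
      unfold TT tau
      congr 1
      funext x
      rw [hip]
    rw [← e1, ← e2, hF, hF, hT] at key
    have hd : 0 < |M.det|⁻¹ := inv_pos.2 (abs_pos.2 hM)
    rw [mul_div_mul_left _ _ hd.ne', mul_assoc, ← mul_div_assoc] at key
    exact le_of_mul_le_mul_left key hd

end H501NL
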